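import Pool.Agent.Q33.Kraw.Poly

/-! `MP_66ba75_co`: the maximisers of the number of edges of the complete oddly bipartite
`2k`-graphs, for all `k ≥ 2` and all large `n`. -/

namespace Pool.Agent.Results.MP_66ba75_co.LargestKrawtchoukRoot

open Finset Filter Topology Pool.Agent.Q33.Kraw

/-- `e_k(n, a) = ∑_{i odd} C(a, i) C(n - a, 2k - i)` -/
def edges (k n a : ℕ) : ℕ :=
  ∑ i ∈ (range (2 * k + 1)).filter Odd, a.choose i * (n - a).choose (2 * k - i)

theorem edges_kraw (k n a : ℕ) (ha : a ≤ n) :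
    (n.choose (2 * k) : ℝ) = kraw (2 * k) n a + 2 * (edges k n a : ℝ) := by
  have h1 : (n.choose (2 * k) : ℝ) =
      ∑ j ∈ range (2 * k + 1), ((a.choose j * (n - a).choose (2 * k - j) : ℕ) : ℝ) := by
    have h2 := Nat.add_choose_eq a (n - a) (2 * k)
    rw [Nat.add_sub_cancel' ha, Finset.Nat.sum_antidiagonal_eq_sum_range_succ_mk] at h2
    rw [h2]
    push_cast
    rfl
  have h3 : kraw (2 * k) n a = ∑ j ∈ range (2 * k + 1),
      (-1) ^ j * ((a.choose j * (n - a).choose (2 * k - j) : ℕ) : ℝ) := by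
    unfold kraw
    refine sum_congr rfl fun j _ => ?_
    rw [← Nat.cast_sub ha, ch_nat, ch_nat]
    push_cast
    ring
  rw [h1, h3, edges, ← sum_filter_add_sum_filter_not (range (2 * k + 1)) Odd,
    ← sum_filter_add_sum_filter_not (range (2 * k + 1)) Odd
      (f := fun j => (-1) ^ j * ((a.choose j * (n - a).choose (2 * k - j) : ℕ) : ℝ))]
  have h4 : ∑ j ∈ (range (2 * k + 1)).filter Odd,
      (-1) ^ j * ((a.choose j * (n - a).choose (2 * k - j) : ℕ) : ℝ) =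
      -∑ j ∈ (range (2 * k + 1)).filter Odd, ((a.choose j * (n - a).choose (2 * k - j) : ℕ) : ℝ) := by
    rw [← sum_neg_distrib]
    refine sum_congr rfl fun j hj => ?_
    rw [(mem_filter.1 hj).2.neg_one_pow]
    ring
  have h5 : ∑ j ∈ (range (2 * k + 1)).filter (fun x => ¬Odd x),
      (-1) ^ j * ((a.choose j * (n - a).choose (2 * k - j) : ℕ) : ℝ) =
      ∑ j ∈ (range (2 * k + 1)).filter (fun x => ¬Odd x),
        ((a.choose j * (n - a).choose (2 * k - j) : ℕ) : ℝ) := by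
    refine sum_congr rfl fun j hj => ?_
    rw [(Nat.not_odd_iff_even.1 (mem_filter.1 hj).2).neg_one_pow]
    ring
  rw [h4, h5]
  push_cast
  ring

theorem max_iff (k n a : ℕ) (ha : a ≤ n) : (∀ b ≤ n, edges k n b ≤ edges k n a) ↔
    ∀ b ≤ n, kraw (2 * k) n (a : ℝ) ≤ kraw (2 * k) n (b : ℝ) := by
  refine forall₂_congr fun b hb => ?_
  have h1 := edges_kraw k n a ha
  have h2 := edges_kraw k n b hb
  rw [← Nat.cast_le (α := ℝ)]
  constructor <;> intro h <;> linarith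

theorem main {k : ℕ} (hk : 2 ≤ k) : ∀ᶠ n : ℕ in atTop, ∃ ρ : ℝ,
    IsGreatest {x : ℝ | kraw (2 * k - 1) (n - 1) x = 0} ρ ∧ (n : ℝ) / 2 < ρ ∧
    ∀ a ≤ n, (∀ b ≤ n, kraw (2 * k) n (a : ℝ) ≤ kraw (2 * k) n (b : ℝ)) ↔
      ((a : ℝ) - 1 ≤ ρ ∧ ρ ≤ a) ∨ ((n : ℝ) - a - 1 ≤ ρ ∧ ρ ≤ (n : ℝ) - a) := by
  obtain ⟨m, hm⟩ : ∃ m, 2 * k = m + 2 := ⟨2 * k - 2, by omega⟩
  have hm1 : 1 ≤ m := by omega
  have hme : Even m := ⟨k - 1, by omega⟩
  have hmo : Odd (m + 1) := hme.add_one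
  have hme2 : Even (m + 2) := by rw [← hm]; exact even_two_mul k
  rw [hm, show m + 2 - 1 = m + 1 by omega]
  obtain ⟨τ, hτ, h1, h2, h3, h4⟩ := data hm1
  have hev : ∀ᶠ x in 𝓝 τ, 0 < g m 0 x := (g_cont' m 0).continuousAt.eventually (lt_mem_nhds h2)
  obtain ⟨η, hη, hη2⟩ := Metric.eventually_nhds_iff.1 hev
  set δ : ℝ := min (η / 4) (τ / 4) with hδdef
  have hδ : 0 < δ := lt_min (by linarith) (by linarith)
  have hδη : δ ≤ η / 4 := min_le_left _ _
  have hδτ : δ ≤ τ / 4 := min_le_right _ _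
  have hwin : ∀ t ∈ Set.Icc (τ - 2 * δ) (τ + 2 * δ), 0 < g m 0 t := by
    intro t ht
    apply hη2
    rw [Real.dist_eq, abs_sub_lt_iff]
    constructor <;> linarith [ht.1, ht.2]
  have E1 := perturb_zero hδ h1 hwin h3
  have E2 := perturb_min hme hτ.le hδ h1 h2 h3 h4
  -- the comparison sequence
  set aa : ℕ → ℕ := fun n => ⌈((n : ℝ) + τ * Real.sqrt n) / 2⌉₊ with haa
  have haa1 : ∀ n : ℕ, ((n : ℝ) + τ * Real.sqrt n) / 2 ≤ aa n := fun n => Nat.le_ceil _
  have haa2 : ∀ n : ℕ, (aa n : ℝ) < ((n : ℝ) + τ * Real.sqrt n) / 2 + 1 := fun n =>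
    Nat.ceil_lt_add_one (by positivity)
  have hsqrt : Tendsto (fun n : ℕ => Real.sqrt n) atTop atTop :=
    Real.tendsto_sqrt_atTop.comp tendsto_natCast_atTop_atTop
  have hs : Tendsto (fun n : ℕ => (2 * (aa n : ℝ) - n) / Real.sqrt n) atTop (𝓝 τ) := by
    have hu : Tendsto (fun n : ℕ => τ + 2 / Real.sqrt n) atTop (𝓝 (τ + 0)) :=
      tendsto_const_nhds.add (tendsto_const_nhds.div_atTop hsqrt)
    rw [add_zero] at hu
    refine tendsto_of_tendsto_of_tendsto_of_le_of_le' tendsto_const_nhds hu ?_ ?_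
    · filter_upwards [eventually_ge_atTop 1] with n hn
      have hpos : 0 < Real.sqrt n := Real.sqrt_pos.2 (by exact_mod_cast hn)
      rw [le_div_iff₀ hpos]
      have := haa1 n
      linarith
    · filter_upwards [eventually_ge_atTop 1] with n hn
      have hpos : 0 < Real.sqrt n := Real.sqrt_pos.2 (by exact_mod_cast hn)
      have h5 : τ + 2 / Real.sqrt n = (τ * Real.sqrt n + 2) / Real.sqrt n := by field_simp
      rw [h5]
      apply div_le_div_of_nonneg_right _ hpos.le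
      have := haa2 n
      linarith
  have hε : Tendsto (fun n : ℕ => 1 / (n : ℝ)) atTop (𝓝 0) := tendsto_one_div_atTop_nhds_zero_nat
  have E2' : ∀ᶠ n : ℕ in atTop, ∀ t, 0 ≤ t → δ ≤ |t - τ| →
      g (m + 2) (1 / (n : ℝ)) ((2 * (aa n : ℝ) - n) / Real.sqrt n) < g (m + 2) (1 / (n : ℝ)) t := by
    have := (hε.prodMk_nhds hs).eventually E2
    filter_upwards [this] with n hn
    exact hn (by positivity)
  have hsub : Tendsto (fun n : ℕ => n - 1) atTop atTop := tendsto_sub_atTop_nat 1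
  have E1' : ∀ᶠ n : ℕ in atTop, ∃ z, g (m + 1) (1 / ((n - 1 : ℕ) : ℝ)) z = 0 ∧
      (∀ t, τ - 2 * δ ≤ t → t < z → g (m + 1) (1 / ((n - 1 : ℕ) : ℝ)) t < 0) ∧
      (∀ t, z < t → 0 < g (m + 1) (1 / ((n - 1 : ℕ) : ℝ)) t) ∧ |z - τ| ≤ 2 * δ := by
    have := (hε.comp hsub).eventually E1
    filter_upwards [this] with n hn
    exact hn (by simp only [Function.comp]; positivity)
  have hsqrt' : Tendsto (fun n : ℕ => Real.sqrt ((n - 1 : ℕ) : ℝ)) atTop atTop := hsqrt.comp hsub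
  have hc : Tendsto (fun n : ℕ => Real.sqrt n / Real.sqrt ((n - 1 : ℕ) : ℝ)) atTop (𝓝 1) := by
    have h5 : Tendsto (fun n : ℕ => Real.sqrt (1 + 1 / ((n - 1 : ℕ) : ℝ))) atTop
        (𝓝 (Real.sqrt (1 + 0))) :=
      (Real.continuous_sqrt.tendsto _).comp (tendsto_const_nhds.add (hε.comp hsub))
    rw [add_zero, Real.sqrt_one] at h5
    refine h5.congr' ?_
    filter_upwards [eventually_ge_atTop 2] with n hn
    have hn1 : (0 : ℝ) < ((n - 1 : ℕ) : ℝ) := by exact_mod_cast (by omega : 0 < n - 1)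
    have hn2 : (n : ℝ) = ((n - 1 : ℕ) : ℝ) + 1 := by
      rw [Nat.cast_sub (by omega)]; push_cast; ring
    rw [← Real.sqrt_div (by positivity)]
    congr 1
    rw [hn2]
    field_simp
  have E3 : ∀ᶠ n : ℕ in atTop, δ * (Real.sqrt n / Real.sqrt ((n - 1 : ℕ) : ℝ)) +
      τ * (Real.sqrt n / Real.sqrt ((n - 1 : ℕ) : ℝ) - 1) + 1 / Real.sqrt ((n - 1 : ℕ) : ℝ) <
      2 * δ := by
    have h5 : Tendsto (fun n : ℕ => δ * (Real.sqrt n / Real.sqrt ((n - 1 : ℕ) : ℝ)) +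
      τ * (Real.sqrt n / Real.sqrt ((n - 1 : ℕ) : ℝ) - 1) + 1 / Real.sqrt ((n - 1 : ℕ) : ℝ)) atTop
      (𝓝 (δ * 1 + τ * (1 - 1) + 0)) :=
      ((hc.const_mul δ).add ((hc.sub_const 1).const_mul τ)).add
        (tendsto_const_nhds.div_atTop hsqrt')
    exact h5.eventually_lt tendsto_const_nhds (by linarith)
  have E4 : ∀ᶠ n : ℕ in atTop, (τ + δ) * Real.sqrt n + 2 ≤ n := by
    filter_upwards [hsqrt.eventually_ge_atTop (τ + δ + 2), eventually_ge_atTop 1] with n hn hn1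
    have h5 : Real.sqrt n * Real.sqrt n = n := Real.mul_self_sqrt (by positivity)
    have h6 : 1 ≤ Real.sqrt n := by linarith
    nlinarith
  have E5 : ∀ᶠ n : ℕ in atTop, 2 / τ < Real.sqrt ((n - 1 : ℕ) : ℝ) := hsqrt'.eventually_gt_atTop _
  filter_upwards [E1', E2', E3, E4, E5, eventually_ge_atTop 2] with n ⟨z, hz0, hzneg, hzpos, hzτ⟩ hE2 hE3
    hE4 hE5 hn
  set sq : ℝ := Real.sqrt n with hsq
  set sq' : ℝ := Real.sqrt ((n - 1 : ℕ) : ℝ) with hsq'
  have hsqpos : 0 < sq := Real.sqrt_pos.2 (by exact_mod_cast (by omega : 0 < n))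
  have hsqpos' : 0 < sq' := Real.sqrt_pos.2 (by exact_mod_cast (by omega : 0 < n - 1))
  have hcast : ((n - 1 : ℕ) : ℝ) = (n : ℝ) - 1 := by
    rw [Nat.cast_sub (by omega)]; push_cast; ring
  have hKval : ∀ x : ℝ, kraw (m + 2) n x = sq ^ (m + 2) * g (m + 2) (1 / n) ((2 * x - n) / sq) := by
    intro x
    rw [kraw_g (m + 2) n (by omega) x, ← hsq,
      show ((n : ℝ) - 2 * x) / sq = -((2 * x - n) / sq) by ring, g_neg, hme2.neg_one_pow, one_mul]
  have hD : ∀ x : ℝ, kraw (m + 1) (n - 1) x =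
      -(sq' ^ (m + 1) * g (m + 1) (1 / ((n - 1 : ℕ) : ℝ)) ((2 * x - (n - 1)) / sq')) := by
    intro x
    rw [kraw_g (m + 1) (n - 1) (by omega) x, ← hsq',
      show (((n - 1 : ℕ) : ℝ) - 2 * x) / sq' = -((2 * x - (n - 1)) / sq') by rw [hcast]; ring,
      g_neg, hmo.neg_one_pow]
    ring
  have hdiff : ∀ x : ℝ, kraw (m + 2) n (x + 1) = kraw (m + 2) n x - 2 * kraw (m + 1) (n - 1) x := by
    intro x
    have := kraw_diff (m + 1) (n - 1) x
    rwa [show n - 1 + 1 = n by omega] at this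
  have hsymm : ∀ x : ℝ, kraw (m + 2) n ((n : ℝ) - x) = kraw (m + 2) n x := by
    intro x
    rw [hKval, hKval, show (2 * ((n : ℝ) - x) - n) / sq = -((2 * x - n) / sq) by ring, g_neg,
      hme2.neg_one_pow, one_mul]
  set ρ : ℝ := ((n : ℝ) - 1 + z * sq') / 2 with hρ
  have hρz : (2 * ρ - (n - 1)) / sq' = z := by
    rw [hρ]; field_simp; ring
  have hlt : ∀ x : ℝ, z < (2 * x - (n - 1)) / sq' ↔ ρ < x := by
    intro x
    rw [lt_div_iff₀ hsqpos', hρ]
    constructor <;> intro h <;> linarith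
  have hgt : ∀ x : ℝ, (2 * x - (n - 1)) / sq' < z ↔ x < ρ := by
    intro x
    rw [div_lt_iff₀ hsqpos', hρ]
    constructor <;> intro h <;> linarith
  have hρ0 : kraw (m + 1) (n - 1) ρ = 0 := by
    rw [hD, hρz, hz0, mul_zero, neg_zero]
  have hpow' : 0 < sq' ^ (m + 1) := pow_pos hsqpos' _
  have hpow : 0 < sq ^ (m + 2) := pow_pos hsqpos _
  refine ⟨ρ, ⟨hρ0, ?_⟩, ?_, ?_⟩
  · intro x hx
    by_contra hcon
    have h5 := hzpos _ ((hlt x).2 (not_le.1 hcon))
    have h6 : kraw (m + 1) (n - 1) x = 0 := hx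
    rw [hD] at h6
    have h7 := mul_pos hpow' h5
    linarith
  · have h5 : τ / 2 ≤ z := by
      rw [abs_le] at hzτ
      linarith [hzτ.1]
    have h6 : 1 < τ / 2 * sq' := by
      rw [div_lt_iff₀ hτ] at hE5
      linarith
    have h7 : τ / 2 * sq' ≤ z * sq' := mul_le_mul_of_nonneg_right h5 hsqpos'.le
    rw [hρ]
    linarith
  -- minimisers in the upper half
  have hmin : ∀ a : ℕ, a ≤ n → n ≤ 2 * a →
      (∀ b ≤ n, kraw (m + 2) n (a : ℝ) ≤ kraw (m + 2) n (b : ℝ)) → (a : ℝ) - 1 ≤ ρ ∧ ρ ≤ a := by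
    intro a ha ha2 hb
    have ha2' : (n : ℝ) ≤ 2 * a := by exact_mod_cast ha2
    have haan : aa n ≤ n := by
      have h5 := haa2 n
      have h6 : 0 ≤ δ * sq := by positivity
      have h7 : (aa n : ℝ) < n := by linarith
      exact_mod_cast h7.le
    have h5 := hb (aa n) haan
    rw [hKval, hKval] at h5
    have h6 := le_of_mul_le_mul_left h5 hpow
    set s : ℝ := (2 * (a : ℝ) - n) / sq with hsdef
    have hs0 : 0 ≤ s := div_nonneg (by linarith) hsqpos.le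
    have hsδ : |s - τ| < δ := by
      by_contra hcon
      have := hE2 s hs0 (not_lt.1 hcon)
      linarith
    have hsa : 2 * (a : ℝ) - n = s * sq := by rw [hsdef]; field_simp
    rw [abs_sub_lt_iff] at hsδ
    have ha1 : 1 ≤ a := by omega
    have han : a + 1 ≤ n := by
      have h7 : s * sq ≤ (τ + δ) * sq := mul_le_mul_of_nonneg_right (by linarith [hsδ.1]) hsqpos.le
      have h8 : (a : ℝ) + 1 ≤ n := by linarith
      exact_mod_cast h8
    set c : ℝ := sq / sq' with hcdef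
    have hc1 : 1 ≤ c := by
      rw [hcdef, le_div_iff₀ hsqpos', one_mul, hsq, hsq']
      apply Real.sqrt_le_sqrt
      rw [hcast]; linarith
    have hq : 0 < 1 / sq' := by positivity
    have hbound : ∀ e : ℝ, |e| ≤ 1 → |(2 * (a : ℝ) - n + e) / sq' - τ| ≤ 2 * δ := by
      intro e he
      have h7 : (2 * (a : ℝ) - n + e) / sq' - τ = (s - τ) * c + τ * (c - 1) + e * (1 / sq') := by
        rw [hsa, hcdef]; field_simp; ring
      rw [h7]
      have h8 : |(s - τ) * c| ≤ δ * c := by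
        rw [abs_mul, abs_of_nonneg (by linarith : (0 : ℝ) ≤ c)]
        apply mul_le_mul_of_nonneg_right _ (by linarith)
        rw [abs_le]; constructor <;> linarith [hsδ.1, hsδ.2]
      have h9 : |τ * (c - 1)| = τ * (c - 1) := abs_of_nonneg (mul_nonneg hτ.le (by linarith))
      have h10 : |e * (1 / sq')| ≤ 1 / sq' := by
        rw [abs_mul, abs_of_pos hq]
        have := mul_le_mul_of_nonneg_right he hq.le
        linarith
      have h11 := abs_add_three ((s - τ) * c) (τ * (c - 1)) (e * (1 / sq'))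
      linarith
    constructor
    · -- a - 1 ≤ ρ
      by_contra hcon
      have h7 : z < (2 * ((a : ℝ) - 1) - (n - 1)) / sq' := (hlt _).2 (not_le.1 hcon)
      have h8 := hzpos _ h7
      have h9 := hdiff ((a : ℝ) - 1)
      rw [sub_add_cancel, hD] at h9
      have h10 := hb (a - 1) (by omega)
      rw [Nat.cast_sub ha1, Nat.cast_one] at h10
      have h11 := mul_pos hpow' h8
      linarith
    · by_contra hcon
      have h7 : (2 * (a : ℝ) - (n - 1)) / sq' < z := (hgt _).2 (not_le.1 hcon)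
      have h12 := hbound 1 (by norm_num)
      rw [abs_le] at h12
      have h13 : (2 * (a : ℝ) - (n - 1)) / sq' = (2 * (a : ℝ) - n + 1) / sq' := by ring
      have h8 := hzneg _ (by rw [h13]; linarith [h12.1]) h7
      have h9 := hdiff (a : ℝ)
      rw [hD] at h9
      have h10 := hb (a + 1) han
      push_cast at h10
      have h11 := mul_neg_of_pos_of_neg hpow' h8
      linarith
  -- a minimiser in the upper half
  obtain ⟨a₁, ha₁, hmin₁⟩ := exists_min_image (range (n + 1)) (fun b : ℕ => kraw (m + 2) n (b : ℝ))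
    ⟨0, mem_range.2 (by omega)⟩
  have ha₁' : a₁ ≤ n := by have := mem_range.1 ha₁; omega
  have hmin₁' : ∀ b ≤ n, kraw (m + 2) n (a₁ : ℝ) ≤ kraw (m + 2) n (b : ℝ) := fun b hb =>
    hmin₁ b (mem_range.2 (by omega))
  obtain ⟨a₀, ha₀, ha₀2, hmin₀⟩ : ∃ a₀ ≤ n, n ≤ 2 * a₀ ∧
      ∀ b ≤ n, kraw (m + 2) n (a₀ : ℝ) ≤ kraw (m + 2) n (b : ℝ) := by
    rcases le_total n (2 * a₁) with h | h
    · exact ⟨a₁, ha₁', h, hmin₁'⟩
    · refine ⟨n - a₁, by omega, by omega, fun b hb => ?_⟩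
      rw [Nat.cast_sub ha₁', hsymm]
      exact hmin₁' b hb
  obtain ⟨hr1, hr2⟩ := hmin a₀ ha₀ ha₀2 hmin₀
  have hconv : ∀ a : ℕ, a ≤ n → (a : ℝ) - 1 ≤ ρ → ρ ≤ a →
      ∀ b ≤ n, kraw (m + 2) n (a : ℝ) ≤ kraw (m + 2) n (b : ℝ) := by
    intro a ha h5 h6 b hb
    have heq : kraw (m + 2) n (a : ℝ) = kraw (m + 2) n (a₀ : ℝ) := by
      rcases lt_trichotomy a a₀ with h | h | h
      · have h7 : (a : ℝ) + 1 ≤ a₀ := by exact_mod_cast h
        have h8 : ρ = a := by linarith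
        have h9 : (a₀ : ℝ) = ρ + 1 := by linarith
        have h10 := hdiff ρ
        rw [hρ0, mul_zero, sub_zero] at h10
        rw [h9, h10, h8]
      · rw [h]
      · have h7 : (a₀ : ℝ) + 1 ≤ a := by exact_mod_cast h
        have h8 : ρ = a₀ := by linarith
        have h9 : (a : ℝ) = ρ + 1 := by linarith
        have h10 := hdiff ρ
        rw [hρ0, mul_zero, sub_zero] at h10
        rw [h9, h10, h8]
    rw [heq]
    exact hmin₀ b hb
  intro a ha
  constructor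
  · intro hb
    rcases le_total n (2 * a) with h | h
    · left; exact hmin a ha h hb
    · right
      have h5 := hmin (n - a) (by omega) (by omega) (fun b hb' => by
        rw [Nat.cast_sub ha, hsymm]
        exact hb b hb')
      rwa [Nat.cast_sub ha] at h5
  · rintro (⟨h5, h6⟩ | ⟨h5, h6⟩)
    · exact hconv a ha h5 h6
    · intro b hb
      have h7 := hconv (n - a) (by omega) (by rw [Nat.cast_sub ha]; exact h5)
        (by rw [Nat.cast_sub ha]; exact h6) b hb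
      rwa [Nat.cast_sub ha, hsymm] at h7

/-- **Theorem.** Let `k ≥ 2`. For all sufficiently large `n`, let `ρ` be the largest real zero of
the Krawtchouk polynomial `K_{2k-1}(x; n-1)`. Then `a ∈ {0, …, n}` maximises `e_k(n, ·)` if and only
if `a - 1 ≤ ρ ≤ a` or `(n - a) - 1 ≤ ρ ≤ n - a`; that is, the maximisers are `⌈ρ⌉` (and also `ρ + 1`,
if `ρ` is an integer) and their images under `a ↦ n - a`. -/
theorem result (k : ℕ) (hk : 2 ≤ k) : ∃ n₀ : ℕ, ∀ n ≥ n₀, ∃ ρ : ℝ,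
    IsGreatest {x : ℝ | kraw (2 * k - 1) (n - 1) x = 0} ρ ∧ (n : ℝ) / 2 < ρ ∧
    ∀ a ≤ n, (∀ b ≤ n, edges k n b ≤ edges k n a) ↔
      ((a : ℝ) - 1 ≤ ρ ∧ ρ ≤ a) ∨ ((n : ℝ) - a - 1 ≤ ρ ∧ ρ ≤ (n : ℝ) - a) := by
  obtain ⟨n₀, hn₀⟩ := eventually_atTop.1 (main hk)
  refine ⟨n₀, fun n hn => ?_⟩
  obtain ⟨ρ, h1, h2, h3⟩ := hn₀ n hn
  refine ⟨ρ, h1, h2, fun a ha => ?_⟩
  rw [max_iff k n a ha]
  exact h3 a ha

end Pool.Agent.Results.MP_66ba75_co.LargestKrawtchoukRoot
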